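import Mathlib

set_option autoImplicit false

namespace Pool.Agent.Results.MP_110f0a_gt.SequentialFrechet

open Filter Topology Set

universe u

variable {X : Type u}

/-- pointwise convergence of a sequence of sets -/
def Conv (A : ℕ → Set X) (B : Set X) : Prop := ∀ x, ∀ᶠ k in atTop, (x ∈ A k ↔ x ∈ B)

theorem Conv.comp {A : ℕ → Set X} {B : Set X} (h : Conv A B) {φ : ℕ → ℕ} (hφ : StrictMono φ) :
    Conv (fun k => A (φ k)) B := fun x => hφ.tendsto_atTop.eventually (h x)

/-- field of sets, with the sequentiality property -/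
structure SF (C : Set (Set X)) : Prop where
  empty : ∅ ∈ C
  compl : ∀ A ∈ C, Aᶜ ∈ C
  union : ∀ A ∈ C, ∀ B ∈ C, A ∪ B ∈ C
  seq : ∀ 𝒜 ⊆ C, (∀ (A : ℕ → Set X) (B : Set X), (∀ k, A k ∈ 𝒜) → B ∈ C → Conv A B → B ∈ 𝒜) →
    ∀ B ∈ C, (∀ F : Finset X, ∃ A ∈ 𝒜, ∀ x ∈ F, (x ∈ A ↔ x ∈ B)) → B ∈ 𝒜

variable {C : Set (Set X)}

theorem SF.inter (hC : SF C) {A B : Set X} (hA : A ∈ C) (hB : B ∈ C) : A ∩ B ∈ C := by
  have := hC.compl _ (hC.union _ (hC.compl _ hA) _ (hC.compl _ hB))
  rwa [Set.compl_union, compl_compl, compl_compl] at this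

theorem SF.diff (hC : SF C) {A B : Set X} (hA : A ∈ C) (hB : B ∈ C) : A \ B ∈ C :=
  hC.inter hA (hC.compl _ hB)

theorem SF.biUnion {ι : Type*} (hC : SF C) (s : Finset ι) {A : ι → Set X}
    (hA : ∀ i ∈ s, A i ∈ C) : (⋃ i ∈ s, A i) ∈ C := by
  classical
  induction s using Finset.induction_on with
  | empty => simpa using hC.empty
  | insert a s ha ih =>
    rw [Finset.set_biUnion_insert]
    exact hC.union _ (hA a (Finset.mem_insert_self a s)) _
      (ih fun i hi => hA i (Finset.mem_insert_of_mem hi))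

theorem SF.biInter {ι : Type*} (hC : SF C) (s : Finset ι) {A : ι → Set X}
    (hA : ∀ i ∈ s, A i ∈ C) : (⋂ i ∈ s, A i) ∈ C := by
  have := hC.compl _ (hC.biUnion s (A := fun i => (A i)ᶜ) fun i hi => hC.compl _ (hA i hi))
  simpa using this

/-- the empty set is in the closure of the family -/
def Near (𝒜 : Set (Set X)) : Prop := ∀ F : Finset X, ∃ A ∈ 𝒜, ∀ x ∈ F, x ∉ A

def NearSeq (A : ℕ → Set X) : Prop := ∀ F : Finset X, ∃ i, ∀ x ∈ F, x ∉ A i

theorem tight (hC : SF C) {𝒜 : Set (Set X)} (h𝒜 : 𝒜 ⊆ C) (hn : Near 𝒜) :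
    ∃ A : ℕ → Set X, (∀ i, A i ∈ 𝒜) ∧ NearSeq A := by
  have key : (∅ : Set X) ∈ {B ∈ C | ∃ A : ℕ → Set X, (∀ i, A i ∈ 𝒜) ∧
      ∀ F : Finset X, ∃ i, ∀ x ∈ F, (x ∈ A i ↔ x ∈ B)} := by
    refine hC.seq _ (Set.sep_subset _ _) ?_ ∅ hC.empty ?_
    · intro D B hD hB hconv
      refine ⟨hB, ?_⟩
      choose hDC A hA𝒜 hA using hD
      refine ⟨fun i => A i.unpair.1 i.unpair.2, fun i => hA𝒜 _ _, fun F => ?_⟩
      have h1 : ∀ᶠ k in atTop, ∀ x ∈ F, (x ∈ D k ↔ x ∈ B) := by
        rw [Filter.eventually_all_finset]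
        exact fun x _ => hconv x
      obtain ⟨k, hk⟩ := h1.exists
      obtain ⟨i, hi⟩ := hA k F
      refine ⟨Nat.pair k i, fun x hx => ?_⟩
      simp only [Nat.unpair_pair]
      exact (hi x hx).trans (hk x hx)
    · intro F
      obtain ⟨A, hA, hAF⟩ := hn F
      refine ⟨A, ⟨h𝒜 hA, fun _ => A, fun _ => hA, fun F => ⟨0, fun x _ => Iff.rfl⟩⟩, ?_⟩
      intro x hx
      simp [hAF x hx]
  obtain ⟨-, A, hA, h⟩ := key
  exact ⟨A, hA, fun F => (h F).imp fun i hi x hx => by simpa using (hi x hx)⟩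

/-- case N -/
def HN (C : Set (Set X)) : Prop :=
  ∃ V : ℕ → Set X, (∀ n, V n ∈ C) ∧ (∀ x, ∀ᶠ n in atTop, x ∉ V n) ∧
    ∃ a : ℕ → ℕ → Set X, (∀ n j, a n j ∈ C ∧ a n j ⊆ V n ∧ (a n j).Nonempty) ∧
      ∀ n, ∀ φ : ℕ → ℕ, StrictMono φ → ∀ B ∈ C, ¬ Conv (fun k => a n (φ k)) B

theorem star (hC : SF C) (hN : HN C) {𝒜 : ℕ → Set (Set X)} (h𝒜 : ∀ n, 𝒜 n ⊆ C)
    (hn : ∀ n, Near (𝒜 n)) :
    ∃ z : ℕ → Set X, NearSeq z ∧ (∀ i, z i ∈ C) ∧ ∀ i, ∃ ν : ℕ → ℕ, StrictMono ν ∧
      ∃ A : ℕ → Set X, (∀ k, A k ∈ 𝒜 (ν k)) ∧ Conv A (z i) := by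
  obtain ⟨V, hVC, hV0, a, ha, hnc⟩ := hN
  choose B hB𝒜 hBn using fun n => tight hC (h𝒜 n) (hn n)
  let e : ℕ → ℕ → Set X := fun n j => (B n j \ V n) ∪ a n j
  have heC : ∀ n j, e n j ∈ C := fun n j =>
    hC.union _ (hC.diff (h𝒜 n (hB𝒜 n j)) (hVC n)) _ (ha n j).1
  let Z : Set (Set X) := {z ∈ C | ∃ ν : ℕ → ℕ, StrictMono ν ∧
      ∃ A : ℕ → Set X, (∀ k, A k ∈ 𝒜 (ν k)) ∧ Conv A z}
  let Zb : Set (Set X) := {D ∈ C | ∀ F : Finset X, ∃ z ∈ Z, ∀ x ∈ F, (x ∈ z ↔ x ∈ D)}
  have hZZb : Z ⊆ Zb := fun z hz => ⟨hz.1, fun F => ⟨z, hz, fun x _ => Iff.rfl⟩⟩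
  have hmem : (∅ : Set X) ∈ (Set.range fun p : ℕ × ℕ => e p.1 p.2) ∪ Zb := by
    refine hC.seq _ ?_ ?_ ∅ hC.empty ?_
    · rintro D (⟨p, rfl⟩ | hD)
      · exact heC _ _
      · exact hD.1
    · intro S D hS hD hconv
      by_cases hfr : ∃ᶠ k in atTop, S k ∈ Zb
      · right
        refine ⟨hD, fun F => ?_⟩
        have h1 : ∀ᶠ k in atTop, ∀ x ∈ F, (x ∈ S k ↔ x ∈ D) := by
          rw [Filter.eventually_all_finset]
          exact fun x _ => hconv x
        obtain ⟨k, hk1, hk2⟩ := (hfr.and_eventually h1).exists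
        obtain ⟨z, hz, hzF⟩ := hk1.2 F
        exact ⟨z, hz, fun x hx => (hzF x hx).trans (hk2 x hx)⟩
      · rw [Filter.not_frequently] at hfr
        obtain ⟨k₀, hk₀⟩ := Filter.eventually_atTop.1 hfr
        have hex : ∀ k, ∃ p : ℕ × ℕ, e p.1 p.2 = S (k + k₀) := by
          intro k
          rcases hS (k + k₀) with h | h
          · exact h
          · exact absurd h (hk₀ _ (Nat.le_add_left _ _))
        choose p hp using hex
        have hconv' : Conv (fun k => e (p k).1 (p k).2) D := by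
          intro x
          have := (tendsto_add_atTop_nat k₀).eventually (hconv x)
          filter_upwards [this] with k hk
          rw [hp k]
          exact hk
        by_cases htd : Tendsto (fun k => (p k).1) atTop atTop
        · right
          apply hZZb
          obtain ⟨ψ, hψ, hψ'⟩ := strictMono_subseq_of_tendsto_atTop htd
          refine ⟨hD, fun k => (p (ψ k)).1, hψ', fun k => B (p (ψ k)).1 (p (ψ k)).2,
            fun k => hB𝒜 _ _, fun x => ?_⟩
          have h1 := hψ'.tendsto_atTop.eventually (hV0 x)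
          have h2 := hψ.tendsto_atTop.eventually (hconv' x)
          filter_upwards [h1, h2] with k hk1 hk2
          rw [← hk2]
          have hxa : x ∉ a (p (ψ k)).1 (p (ψ k)).2 := fun h => hk1 ((ha _ _).2.1 h)
          simp only [Function.comp] at hk1
          simp [e, hk1, hxa]
        · -- a constant first coordinate
          have hn : ∃ n, ∃ᶠ k in atTop, (p k).1 = n := by
            by_contra hcon
            push Not at hcon
            apply htd
            rw [tendsto_atTop]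
            intro N
            have : ∀ᶠ k in atTop, ∀ n ∈ Finset.range N, (p k).1 ≠ n := by
              rw [Filter.eventually_all_finset]
              exact fun n _ => by simpa using hcon n
            filter_upwards [this] with k hk
            by_contra hlt
            push Not at hlt
            exact hk _ (Finset.mem_range.2 hlt) rfl
          obtain ⟨n, hn⟩ := hn
          obtain ⟨ψ, hψ, hψn⟩ := Filter.extraction_of_frequently_atTop hn
          have hconv2 : Conv (fun k => e n (p (ψ k)).2) D := by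
            intro x
            filter_upwards [hψ.tendsto_atTop.eventually (hconv' x)] with k hk
            rw [← hψn k]
            exact hk
          by_cases htd2 : Tendsto (fun k => (p (ψ k)).2) atTop atTop
          · exfalso
            obtain ⟨χ, hχ, hχ'⟩ := strictMono_subseq_of_tendsto_atTop htd2
            refine hnc n _ hχ' (D ∩ V n) (hC.inter hD (hVC n)) fun x => ?_
            filter_upwards [hχ.tendsto_atTop.eventually (hconv2 x)] with k hk
            by_cases hxV : x ∈ V n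
            · have : x ∈ e n (p (ψ (χ k))).2 ↔ x ∈ a n (p (ψ (χ k))).2 := by
                simp [e, hxV]
              simp only [Function.comp]
              rw [← this, hk]
              simp [hxV]
            · have : x ∉ a n (p (ψ (χ k))).2 := fun h => hxV ((ha _ _).2.1 h)
              simp [Function.comp, this, hxV]
          · left
            have hj : ∃ j, ∃ᶠ k in atTop, (p (ψ k)).2 = j := by
              by_contra hcon
              push Not at hcon
              apply htd2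
              rw [tendsto_atTop]
              intro N
              have : ∀ᶠ k in atTop, ∀ n ∈ Finset.range N, (p (ψ k)).2 ≠ n := by
                rw [Filter.eventually_all_finset]
                exact fun n _ => by simpa using hcon n
              filter_upwards [this] with k hk
              by_contra hlt
              push Not at hlt
              exact hk _ (Finset.mem_range.2 hlt) rfl
            obtain ⟨j, hj⟩ := hj
            refine ⟨(n, j), ?_⟩
            ext x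
            obtain ⟨k, hk1, hk2⟩ := (hj.and_eventually (hconv2 x)).exists
            simp only [hk1] at hk2
            exact hk2
    · intro F
      have h1 : ∀ᶠ n in atTop, ∀ x ∈ F, x ∉ V n := by
        rw [Filter.eventually_all_finset]
        exact fun x _ => hV0 x
      obtain ⟨n, hn⟩ := h1.exists
      obtain ⟨j, hj⟩ := hBn n F
      refine ⟨e n j, Or.inl ⟨(n, j), rfl⟩, fun x hx => ?_⟩
      have : x ∉ a n j := fun h => hn x hx ((ha _ _).2.1 h)
      simp [e, hj x hx, this]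
  rcases hmem with ⟨⟨n, j⟩, h⟩ | h
  · exfalso
    obtain ⟨y, hy⟩ := (ha n j).2.2
    have : y ∈ e n j := Or.inr hy
    simp only at h
    rw [h] at this
    exact this
  · have hNZ : Near Z := by
      intro F
      obtain ⟨z, hz, hzF⟩ := h.2 F
      exact ⟨z, hz, fun x hx => by simpa using (hzF x hx)⟩
    obtain ⟨z, hz, hzn⟩ := tight hC (Set.sep_subset _ _) hNZ
    exact ⟨z, hzn, fun i => (hz i).1, fun i => (hz i).2⟩

theorem hurewicz (hC : SF C) (hN : HN C) {g : X → ℕ → ℕ} (hg : ∀ i m, {x | m < g x i} ∈ C) :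
    ∃ b : ℕ → ℕ, ∀ x, ∀ᶠ i in atTop, g x i ≤ b i := by
  let T : ℕ → ℕ → Set X := fun n m => ⋃ i ∈ Finset.range (n + 1), {x | m < g x i}
  have hT : ∀ n m, T n m ∈ C := fun n m => hC.biUnion _ fun i _ => hg i m
  have hnear : ∀ n, Near (Set.range (T n)) := by
    intro n F
    refine ⟨T n (F.sup fun x => (Finset.range (n + 1)).sup fun i => g x i), ⟨_, rfl⟩, ?_⟩
    intro x hx hxT
    simp only [T, Set.mem_iUnion, Finset.mem_range] at hxT
    obtain ⟨i, hi, hlt⟩ := hxT
    have h1 : g x i ≤ (Finset.range (n + 1)).sup fun i => g x i :=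
      Finset.le_sup (f := fun i => g x i) (Finset.mem_range.2 hi)
    have h2 := Finset.le_sup (f := fun x => (Finset.range (n + 1)).sup fun i => g x i) hx
    have h3 : (F.sup fun x => (Finset.range (n + 1)).sup fun i => g x i) < g x i := hlt
    omega
  obtain ⟨z, hz, -, hzs⟩ := star hC hN (𝒜 := fun n => Set.range (T n))
    (by rintro n _ ⟨m, rfl⟩; exact hT n m) hnear
  choose ν hν A hA hAz using hzs
  choose μ hμ using hA
  refine ⟨fun k => (Finset.range (k + 1)).sup fun i => μ i k, fun x => ?_⟩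
  obtain ⟨i, hi⟩ := hz {x}
  have hxi : x ∉ z i := hi x (Finset.mem_singleton_self x)
  filter_upwards [hAz i x, eventually_ge_atTop i] with k hk hik
  have h1 : x ∉ A i k := fun h => hxi (hk.1 h)
  rw [← hμ i k] at h1
  have h2 : g x k ≤ μ i k := by
    by_contra hlt
    push Not at hlt
    apply h1
    simp only [T, Set.mem_iUnion, Finset.mem_range]
    exact ⟨k, Nat.lt_succ_of_le ((hν i).id_le k), hlt⟩
  exact h2.trans (Finset.le_sup (f := fun i => μ i k) (Finset.mem_range.2 (Nat.lt_succ_of_le hik)))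

theorem rothberger (hC : SF C) (hN : HN C) {𝒱 : ℕ → Set (Set X)} (h𝒱 : ∀ n, 𝒱 n ⊆ C)
    (hne : ∀ n, (𝒱 n).Nonempty) (hcov : ∀ x, ∀ᶠ n in atTop, ∃ V ∈ 𝒱 n, x ∈ V) :
    ∃ V : ℕ → Set X, (∀ n, V n ∈ 𝒱 n) ∧ ∀ x, ∃ n, x ∈ V n := by
  classical
  choose V₀ hV₀ using hne
  let 𝒜 : ℕ → Set (Set X) := fun p => {D | ∃ (B : Finset ℕ) (W : ℕ → Set X),
    (∀ n ∈ B, p ≤ n) ∧ (∀ n ∈ B, W n ∈ 𝒱 n) ∧ D = (⋃ n ∈ B, W n)ᶜ}
  have h𝒜 : ∀ p, 𝒜 p ⊆ C := by
    rintro p _ ⟨B, W, -, hW, rfl⟩
    exact hC.compl _ (hC.biUnion B fun n hn => h𝒱 n (hW n hn))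
  have hnear : ∀ p, Near (𝒜 p) := by
    intro p F
    have : ∃ (B : Finset ℕ) (W : ℕ → Set X),
        (∀ n ∈ B, p ≤ n) ∧ (∀ n ∈ B, W n ∈ 𝒱 n) ∧ ∀ x ∈ F, ∃ n ∈ B, x ∈ W n := by
      induction F using Finset.induction_on with
      | empty => exact ⟨∅, fun _ => ∅, by simp, by simp, by simp⟩
      | insert y F hy ih =>
        obtain ⟨B, W, h1, h2, h3⟩ := ih
        obtain ⟨n, ⟨V, hV, hyV⟩, hn⟩ := ((hcov y).and
          (eventually_ge_atTop (max p (B.sup id + 1)))).exists
        have hnB : n ∉ B := by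
          intro hnB
          have : n ≤ B.sup id := Finset.le_sup (f := id) hnB
          have := le_max_right p (B.sup id + 1)
          omega
        refine ⟨insert n B, fun m => if m = n then V else W m, ?_, ?_, ?_⟩
        · intro m hm
          rcases Finset.mem_insert.1 hm with rfl | hm
          · exact (le_max_left _ _).trans hn
          · exact h1 m hm
        · intro m hm
          rcases Finset.mem_insert.1 hm with rfl | hm
          · simpa using hV
          · have : m ≠ n := fun h => hnB (h ▸ hm)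
            simpa [this] using h2 m hm
        · intro x hx
          rcases Finset.mem_insert.1 hx with rfl | hx
          · exact ⟨n, Finset.mem_insert_self _ _, by simpa using hyV⟩
          · obtain ⟨m, hm, hxm⟩ := h3 x hx
            have : m ≠ n := fun h => hnB (h ▸ hm)
            exact ⟨m, Finset.mem_insert_of_mem hm, by simpa [this] using hxm⟩
    obtain ⟨B, W, h1, h2, h3⟩ := this
    refine ⟨_, ⟨B, W, h1, h2, rfl⟩, fun x hx => ?_⟩
    obtain ⟨n, hn, hxn⟩ := h3 x hx
    simp only [Set.mem_compl_iff, not_not, Set.mem_iUnion]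
    exact ⟨n, hn, hxn⟩
  obtain ⟨z, hz, -, hzs⟩ := star hC hN h𝒜 hnear
  choose ν hν A hA hAz using hzs
  choose B W hBp hBW hAe using hA
  -- thin out to get disjoint blocks
  let t : ℕ → ℕ := fun s => Nat.rec 0 (fun s ts => max ts
    ((B s.unpair.1 (max s ts)).sup id + 1)) s
  have ht : ∀ s, t (s + 1) = max (t s) ((B s.unpair.1 (max s (t s))).sup id + 1) := fun s => rfl
  let k : ℕ → ℕ := fun s => max s (t s)
  have htm : Monotone t := monotone_nat_of_le_succ fun s => by rw [ht]; exact le_max_left _ _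
  have hlow : ∀ s, ∀ n ∈ B s.unpair.1 (k s), t s ≤ n := by
    intro s n hn
    have h1 := hBp s.unpair.1 (k s) n hn
    have h2 := (hν s.unpair.1).id_le (k s)
    have h3 : t s ≤ k s := le_max_right _ _
    simp only [id] at h2
    omega
  have hup : ∀ s, ∀ n ∈ B s.unpair.1 (k s), n < t (s + 1) := by
    intro s n hn
    rw [ht]
    have h1 : n ≤ (B s.unpair.1 (k s)).sup id := Finset.le_sup (f := id) hn
    have h2 := le_max_right (t s) ((B s.unpair.1 (max s (t s))).sup id + 1)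
    simp only [k] at h1
    omega
  have huniq : ∀ s s' n, n ∈ B s.unpair.1 (k s) → n ∈ B s'.unpair.1 (k s') → s = s' := by
    intro s s' n h h'
    rcases lt_trichotomy s s' with hlt | heq | hlt
    · have h1 := hup s n h
      have h2 := hlow s' n h'
      have h3 : t (s + 1) ≤ t s' := htm hlt
      omega
    · exact heq
    · have h1 := hup s' n h'
      have h2 := hlow s n h
      have h3 : t (s' + 1) ≤ t s := htm hlt
      omega
  refine ⟨fun n => if h : ∃ s, n ∈ B s.unpair.1 (k s) then W h.choose.unpair.1 (k h.choose) n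
    else V₀ n, ?_, ?_⟩
  · intro n
    simp only
    split_ifs with h
    · exact hBW _ _ n h.choose_spec
    · exact hV₀ n
  · intro x
    obtain ⟨i, hi⟩ := hz {x}
    have hxi : x ∉ z i := hi x (Finset.mem_singleton_self x)
    obtain ⟨k₀, hk₀⟩ := Filter.eventually_atTop.1 (hAz i x)
    let s := Nat.pair i k₀
    have hs1 : s.unpair.1 = i := by simp [s]
    have hs2 : k₀ ≤ k s := (Nat.right_le_pair i k₀).trans (le_max_left _ _)
    have h1 : x ∉ A i (k s) := fun h => hxi ((hk₀ _ hs2).1 h)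
    rw [hAe] at h1
    simp only [Set.mem_compl_iff, not_not, Set.mem_iUnion] at h1
    obtain ⟨n, hn, hxn⟩ := h1
    have hn' : n ∈ B s.unpair.1 (k s) := by rw [hs1]; exact hn
    refine ⟨n, ?_⟩
    have h : ∃ s, n ∈ B s.unpair.1 (k s) := ⟨s, hn'⟩
    simp only
    rw [dif_pos h]
    have : h.choose = s := huniq _ _ n h.choose_spec hn'
    rw [this, hs1]
    exact hxn

section game

variable {P : Type} (W : P → ℕ → Set X) (nx : P → ℕ → P) (p₀ : P)

/-- positions -/
def pos : List ℕ → P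
  | [] => p₀
  | j :: s => nx (pos s) j

theorem game (hC : SF C) (hN : HN C) (hW : ∀ p j, W p j ∈ C) (hcov : ∀ p x, ∃ j, x ∈ W p j) :
    ∃ (p : ℕ → P) (j : ℕ → ℕ), p 0 = p₀ ∧ (∀ n, p (n + 1) = nx (p n) (j n)) ∧
      ∀ x, ∃ n, x ∈ W (p n) (j n) := by
  classical
  let g : X → List ℕ → ℕ := fun x s => Nat.find (hcov (pos nx p₀ s) x)
  have hgC : ∀ s m, {x | m < g x s} ∈ C := by
    intro s m
    have : {x | m < g x s} = ⋂ j ∈ Finset.range (m + 1), (W (pos nx p₀ s) j)ᶜ := by
      ext x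
      simp only [g, Set.mem_ofPred_eq, Nat.lt_find_iff, Set.mem_iInter, Finset.mem_range,
        Set.mem_compl_iff, Nat.lt_succ_iff]
    rw [this]
    exact hC.biInter _ fun j _ => hC.compl _ (hW _ _)
  let g' : X → ℕ → ℕ := fun x i => g x (Denumerable.ofNat (List ℕ) i)
  have hg'C : ∀ i m, {x | m < g' x i} ∈ C := fun i m => hgC _ m
  obtain ⟨b', hb'⟩ := hurewicz hC hN hg'C
  let b : List ℕ → ℕ := fun s => b' (Encodable.encode s)
  have hb : ∀ x, {s | b s < g x s}.Finite := by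
    intro x
    obtain ⟨i₀, hi₀⟩ := Filter.eventually_atTop.1 (hb' x)
    refine Set.Finite.subset ((Set.finite_Iio i₀).preimage
      (Encodable.encode_injective (α := List ℕ)).injOn) ?_
    intro s hs
    by_contra hlt
    simp only [Set.mem_preimage, Set.mem_Iio, not_lt] at hlt
    have := hi₀ _ hlt
    simp only [g', Denumerable.ofNat_encode] at this
    exact absurd this (not_le.2 hs)
  let F : ℕ → Finset (List ℕ) := fun n => Nat.rec {[]}
    (fun _ Fn => Fn.biUnion fun s => (Finset.range (b s + 1)).image fun j => j :: s) n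
  have hF : ∀ n, F (n + 1) = (F n).biUnion fun s =>
    (Finset.range (b s + 1)).image fun j => j :: s := fun n => rfl
  have hlen : ∀ n, ∀ s ∈ F n, s.length = n := by
    intro n
    induction n with
    | zero => intro s hs; simpa [F] using hs
    | succ n ih =>
      intro s hs
      rw [hF] at hs
      simp only [Finset.mem_biUnion, Finset.mem_image, Finset.mem_range] at hs
      obtain ⟨s', hs', j, -, rfl⟩ := hs
      simp [ih s' hs']
  have hgood : ∀ x, ∀ᶠ n in atTop, ∀ s ∈ F n, g x s ≤ b s := by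
    intro x
    have hfin := hb x
    obtain ⟨N, hN⟩ : ∃ N, ∀ s ∈ {s | b s < g x s}, s.length < N := by
      refine ⟨hfin.toFinset.sup List.length + 1, fun s hs => Nat.lt_succ_of_le ?_⟩
      exact Finset.le_sup (f := List.length) (hfin.mem_toFinset.2 hs)
    filter_upwards [eventually_ge_atTop N] with n hn s hs
    by_contra hlt
    push Not at hlt
    have h1 := hN s hlt
    rw [hlen n s hs] at h1
    omega
  let 𝒱 : ℕ → Set (Set X) := fun n => {V | ∃ t : List ℕ → ℕ, (∀ s ∈ F n, t s ≤ b s) ∧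
    V = ⋂ s ∈ F n, W (pos nx p₀ s) (t s)}
  obtain ⟨V, hV, hVc⟩ := rothberger hC hN (𝒱 := 𝒱)
    (by rintro n _ ⟨t, -, rfl⟩; exact hC.biInter _ fun s _ => hW _ _)
    (fun n => ⟨_, fun _ => 0, fun _ _ => Nat.zero_le _, rfl⟩)
    (fun x => by
      filter_upwards [hgood x] with n hn
      refine ⟨_, ⟨g x, hn, rfl⟩, ?_⟩
      simp only [Set.mem_iInter]
      intro s _
      exact Nat.find_spec (hcov (pos nx p₀ s) x))
  choose t ht hVt using hV
  let f : ℕ → List ℕ := fun n => Nat.rec [] (fun n fn => t n fn :: fn) n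
  have hf : ∀ n, f (n + 1) = t n (f n) :: f n := fun n => rfl
  have hfF : ∀ n, f n ∈ F n := by
    intro n
    induction n with
    | zero => simp [f, F]
    | succ n ih =>
      rw [hF, hf]
      simp only [Finset.mem_biUnion, Finset.mem_image, Finset.mem_range]
      exact ⟨f n, ih, t n (f n), Nat.lt_succ_of_le (ht n _ ih), rfl⟩
  refine ⟨fun n => pos nx p₀ (f n), fun n => t n (f n), rfl, fun n => rfl, fun x => ?_⟩
  obtain ⟨n, hn⟩ := hVc x
  refine ⟨n, ?_⟩
  rw [hVt] at hn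
  simp only [Set.mem_iInter] at hn
  exact hn (f n) (hfF n)

end game

/-- union of the first rows -/
def T (S : ℕ → ℕ → Set X) (n m : ℕ) : Set X := ⋃ i ∈ Finset.range (n + 1), S i m

theorem T_mono (S : ℕ → ℕ → Set X) {n n' : ℕ} (h : n ≤ n') (m : ℕ) : T S n m ⊆ T S n' m := by
  intro x hx
  simp only [T, Set.mem_iUnion, Finset.mem_range] at hx ⊢
  obtain ⟨i, hi, hxi⟩ := hx
  exact ⟨i, by omega, hxi⟩

theorem S_sub_T (S : ℕ → ℕ → Set X) (n m : ℕ) : S n m ⊆ T S n m := by
  intro x hx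
  simp only [T, Set.mem_iUnion, Finset.mem_range]
  exact ⟨n, by omega, hx⟩

theorem T_null {S : ℕ → ℕ → Set X} (hS : ∀ n x, ∀ᶠ m in atTop, x ∉ S n m) (n : ℕ) (x : X) :
    ∀ᶠ m in atTop, x ∉ T S n m := by
  have : ∀ᶠ m in atTop, ∀ i ∈ Finset.range (n + 1), x ∉ S i m := by
    rw [Filter.eventually_all_finset]
    exact fun i _ => hS i x
  filter_upwards [this] with m hm hx
  simp only [T, Set.mem_iUnion] at hx
  obtain ⟨i, hi, hxi⟩ := hx
  exact hm i hi hxi

theorem claim1 (hC : SF C) (hN : HN C) {S : ℕ → ℕ → Set X} (hSC : ∀ n m, S n m ∈ C)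
    (hS : ∀ n x, ∀ᶠ m in atTop, x ∉ S n m) {μ : ℕ → ℕ} (hμ : StrictMono μ) (F : Finset X) :
    ∃ ψ : ℕ → ℕ, StrictMono ψ ∧ ∃ W ∈ C, (∀ x ∈ F, x ∈ W) ∧
      ∀ x ∈ W, ∀ᶠ k in atTop, x ∉ T S k (μ (ψ k)) := by
  let 𝒜 : ℕ → Set (Set X) := fun n => {D | ∃ j, n ≤ j ∧ D = T S n (μ j)}
  obtain ⟨z, hz, hzC, hzs⟩ := star hC hN (𝒜 := 𝒜)
    (by rintro n _ ⟨j, -, rfl⟩; exact hC.biUnion _ fun i _ => hSC i _)
    (by
      intro n F
      have h1 : ∀ᶠ m in atTop, ∀ x ∈ F, x ∉ T S n m := by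
        rw [Filter.eventually_all_finset]
        exact fun x _ => T_null hS n x
      obtain ⟨j, hj, hj'⟩ := ((hμ.tendsto_atTop.eventually h1).and (eventually_ge_atTop n)).exists
      exact ⟨_, ⟨j, hj', rfl⟩, hj⟩)
  obtain ⟨i, hi⟩ := hz F
  obtain ⟨ν, hν, A, hA, hAz⟩ := hzs i
  choose j hj hAj using hA
  have hjt : Tendsto j atTop atTop := by
    refine tendsto_atTop_mono (fun k => ?_) tendsto_id
    exact (hν.id_le k).trans (hj k)
  obtain ⟨φ, hφ, hφ'⟩ := strictMono_subseq_of_tendsto_atTop hjt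
  refine ⟨fun k => j (φ k), hφ', (z i)ᶜ, hC.compl _ (hzC i), hi, fun x hx => ?_⟩
  filter_upwards [hφ.tendsto_atTop.eventually (hAz x)] with k hk hxT
  apply hx
  rw [← hk, hAj]
  refine T_mono S ?_ _ hxT
  exact (hφ.id_le k).trans (hν.id_le _)

theorem caseN (hC : SF C) (hN : HN C) {S : ℕ → ℕ → Set X} (hSC : ∀ n m, S n m ∈ C)
    (hS : ∀ n x, ∀ᶠ m in atTop, x ∉ S n m) :
    ∃ μ : ℕ → ℕ, ∀ x, ∀ᶠ n in atTop, x ∉ S n (μ n) := by
  let P : Type := {μ : ℕ → ℕ // StrictMono μ}
  have h1 : ∀ p : P, ∃ A : ℕ → Set X, (∀ i, A i ∈ {D : Set X | D ∈ C ∧ ∃ ψ : ℕ → ℕ, StrictMono ψ ∧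
      ∀ x ∉ D, ∀ᶠ k in atTop, x ∉ T S k (p.1 (ψ k))}) ∧ NearSeq A := by
    intro p
    refine tight hC (fun D hD => hD.1) fun F => ?_
    obtain ⟨ψ, hψ, W, hW, hFW, h⟩ := claim1 hC hN hSC hS p.2 F
    refine ⟨Wᶜ, ⟨hC.compl _ hW, ψ, hψ, fun x hx => h x (by simpa using hx)⟩, fun x hx => ?_⟩
    simpa using hFW x hx
  choose A hA hAn using h1
  choose hAC ψ hψ hAψ using hA
  obtain ⟨p, j, hp0, hp, hcov⟩ := game (fun p j => (A p j)ᶜ)
    (fun (p : P) j => (⟨fun k => p.1 (ψ p j k), p.2.comp (hψ p j)⟩ : P)) ⟨id, strictMono_id⟩ hC hN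
    (fun p j => hC.compl _ (hAC p j))
    (fun p x => by
      obtain ⟨i, hi⟩ := hAn p {x}
      exact ⟨i, hi x (Finset.mem_singleton_self x)⟩)
  -- the sequences of positions
  have hsub : ∀ i n, ∃ χ : ℕ → ℕ, StrictMono χ ∧ ∀ k, (p (i + n)).1 k = (p i).1 (χ k) := by
    intro i n
    induction n with
    | zero => exact ⟨id, strictMono_id, fun k => rfl⟩
    | succ n ih =>
      obtain ⟨χ, hχ, h⟩ := ih
      refine ⟨fun k => χ (ψ (p (i + n)) (j (i + n)) k), hχ.comp (hψ _ _), fun k => ?_⟩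
      rw [← add_assoc, hp, ← h]
  refine ⟨fun n => (p (n + 1)).1 n, fun x => ?_⟩
  obtain ⟨i, hi⟩ := hcov x
  have hev := hAψ (p i) (j i) x hi
  obtain ⟨k₀, hk₀⟩ := Filter.eventually_atTop.1 hev
  filter_upwards [eventually_ge_atTop (max k₀ i)] with n hn hxn
  obtain ⟨χ, hχ, h⟩ := hsub (i + 1) (n - i)
  have hni : i ≤ n := (le_max_right _ _).trans hn
  have hnk : k₀ ≤ n := (le_max_left _ _).trans hn
  have e1 : i + 1 + (n - i) = n + 1 := by omega
  rw [e1] at h
  have e2 : n ≤ χ n := hχ.id_le n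
  apply hk₀ (χ n) (hnk.trans e2)
  have e3 : (p i).1 (ψ (p i) (j i) (χ n)) = (p (n + 1)).1 n := by
    rw [h n, hp i]
  rw [e3]
  exact T_mono S e2 _ (S_sub_T S n _ hxn)

/-- sequential compactness of a member -/
def PP (C : Set (Set X)) (V : Set X) : Prop :=
  ∀ a : ℕ → Set X, (∀ j, a j ∈ C ∧ a j ⊆ V) →
    ∃ φ : ℕ → ℕ, StrictMono φ ∧ ∃ B ∈ C, Conv (fun k => a (φ k)) B

theorem pp_of_not (hC : SF C) (hN : ¬ HN C) {V : ℕ → Set X} (hVC : ∀ n, V n ∈ C)
    (hV : ∀ x, ∀ᶠ n in atTop, x ∉ V n) : ∀ᶠ n in atTop, PP C (V n) := by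
  by_contra hcon
  obtain ⟨ψ, hψ, hψP⟩ := Filter.extraction_of_frequently_atTop (Filter.not_eventually.1 hcon)
  apply hN
  refine ⟨fun k => V (ψ k), fun n => hVC _, fun x => hψ.tendsto_atTop.eventually (hV x), ?_⟩
  have h1 : ∀ k, ∃ a : ℕ → Set X, (∀ j, a j ∈ C ∧ a j ⊆ V (ψ k) ∧ (a j).Nonempty) ∧
      ∀ φ : ℕ → ℕ, StrictMono φ → ∀ B ∈ C, ¬ Conv (fun k => a (φ k)) B := by
    intro k
    have := hψP k
    simp only [PP] at this
    push Not at this
    obtain ⟨a, ha, hac⟩ := this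
    -- eventually nonempty
    have hne : ∀ᶠ j in atTop, (a j).Nonempty := by
      by_contra hcon2
      obtain ⟨φ, hφ, hφe⟩ := Filter.extraction_of_frequently_atTop (Filter.not_eventually.1 hcon2)
      refine hac φ hφ ∅ hC.empty fun x => Eventually.of_forall fun k => ?_
      have he : a (φ k) = ∅ := Set.not_nonempty_iff_eq_empty.1 (hφe k)
      simp only [he]
    obtain ⟨j₀, hj₀⟩ := Filter.eventually_atTop.1 hne
    refine ⟨fun j => a (j + j₀), fun j => ⟨(ha _).1, (ha _).2, hj₀ _ (Nat.le_add_left _ _)⟩, ?_⟩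
    intro φ hφ B hB hconv
    exact hac (fun k => φ k + j₀) (fun a b hab => by simpa using hφ hab) B hB hconv
  choose a ha hac using h1
  exact ⟨a, ha, hac⟩

theorem PP.iUnion (hC : SF C) {V : Set X} (hV : PP C V) (hVC : V ∈ C) {B : ℕ → Set X}
    (hB : ∀ i, B i ∈ C) : V ∩ ⋃ i, B i ∈ C := by
  obtain ⟨φ, hφ, D, hD, hconv⟩ := hV (fun k => V ∩ ⋃ i ∈ Finset.range k, B i)
    (fun j => ⟨hC.inter hVC (hC.biUnion _ fun i _ => hB i), Set.inter_subset_left⟩)
  have : V ∩ ⋃ i, B i = D := by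
    ext x
    constructor
    · rintro ⟨hxV, hx⟩
      obtain ⟨i, hi⟩ := Set.mem_iUnion.1 hx
      obtain ⟨k, hk, hki⟩ := ((hconv x).and (eventually_gt_atTop i)).exists
      refine hk.1 ⟨hxV, ?_⟩
      simp only [Set.mem_iUnion, Finset.mem_range]
      exact ⟨i, hki.trans_le (hφ.id_le k), hi⟩
    · intro hx
      obtain ⟨k, hk⟩ := (hconv x).exists
      obtain ⟨hxV, h⟩ := hk.2 hx
      refine ⟨hxV, ?_⟩
      simp only [Set.mem_iUnion, Finset.mem_range] at h ⊢
      obtain ⟨i, -, hi⟩ := h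
      exact ⟨i, hi⟩
  rw [this]
  exact hD

theorem caseP' (hC : SF C) {S : ℕ → ℕ → Set X} (hSC : ∀ n m, S n m ∈ C)
    (hS : ∀ n x, ∀ᶠ m in atTop, x ∉ S n m) (hP : ∀ n m, PP C (S n m)) :
    ∃ μ : ℕ → ℕ, ∀ x, ∀ᶠ n in atTop, x ∉ S n (μ n) := by
  classical
  -- countably many types
  have h1 : ∀ V ∈ C, PP C V → ∃ y : ℕ → Set X, ∃ L : ℕ → Finset X, (∀ i, y i ∈ C) ∧
      ∀ x ∈ V, ∃ i, ∃ z ∈ L i, ∀ n m, x ∈ S n m ↔ z ∈ S n m := by
    intro V hVC hVP
    let cl : X → Set X := fun z => {x ∈ V | ∀ n m, x ∈ S n m ↔ z ∈ S n m}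
    have hcl : ∀ z, cl z ∈ C := by
      intro z
      let D : ℕ → Set X := fun i => if z ∈ S i.unpair.1 i.unpair.2 then (S i.unpair.1 i.unpair.2)ᶜ
        else S i.unpair.1 i.unpair.2
      have hD : ∀ i, D i ∈ C := by
        intro i
        simp only [D]
        split_ifs
        · exact hC.compl _ (hSC _ _)
        · exact hSC _ _
      have h2 := hC.diff hVC (hVP.iUnion hC hVC hD)
      have h3 : cl z = V \ (V ∩ ⋃ i, D i) := by
        ext x
        constructor
        · rintro ⟨hxV, hx⟩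
          refine ⟨hxV, ?_⟩
          rintro ⟨-, hxD⟩
          obtain ⟨i, hi⟩ := Set.mem_iUnion.1 hxD
          simp only [D] at hi
          split_ifs at hi with hz
          · exact hi ((hx _ _).2 hz)
          · exact hz ((hx _ _).1 hi)
        · rintro ⟨hxV, hx⟩
          refine ⟨hxV, fun n m => ?_⟩
          have hxi : x ∉ D (Nat.pair n m) := fun h => hx ⟨hxV, Set.mem_iUnion.2 ⟨_, h⟩⟩
          simp only [D, Nat.unpair_pair] at hxi
          split_ifs at hxi with hz
          · simp only [Set.mem_compl_iff, not_not] at hxi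
            exact ⟨fun _ => hz, fun _ => hxi⟩
          · exact ⟨fun h => absurd h hxi, fun h => absurd h hz⟩
      rw [h3]
      exact h2
    obtain ⟨A, hA, hAn⟩ := tight hC (𝒜 := {D | ∃ L : Finset X, D = V \ ⋃ z ∈ L, cl z})
      (by rintro _ ⟨L, rfl⟩; exact hC.diff hVC (hC.biUnion L fun z _ => hcl z))
      (by
        intro F
        refine ⟨_, ⟨F, rfl⟩, fun x hx hxD => hxD.2 ?_⟩
        simp only [Set.mem_iUnion]
        exact ⟨x, hx, hxD.1, fun n m => Iff.rfl⟩)
    choose L hL using hA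
    refine ⟨fun _ => ∅, L, fun _ => hC.empty, fun x hxV => ?_⟩
    obtain ⟨i, hi⟩ := hAn {x}
    have h4 : x ∉ A i := hi x (Finset.mem_singleton_self x)
    rw [hL] at h4
    have h5 : x ∈ ⋃ z ∈ L i, cl z := by
      by_contra h5
      exact h4 ⟨hxV, h5⟩
    simp only [Set.mem_iUnion] at h5
    obtain ⟨z, hz, hxz⟩ := h5
    exact ⟨i, z, hz, hxz.2⟩
  choose! y L hy hL using h1
  -- the countable set of representatives
  let R : Set X := ⋃ n, ⋃ m, ⋃ i, (L (S n m) i : Set X)
  have hR : R.Countable := Set.countable_iUnion fun n => Set.countable_iUnion fun m =>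
    Set.countable_iUnion fun i => (L (S n m) i).countable_toSet
  choose h hh using fun (z : X) (n : ℕ) => Filter.eventually_atTop.1 (hS n z)
  by_cases hne : R.Nonempty
  · obtain ⟨r, hr⟩ := hR.exists_eq_range hne
    refine ⟨fun n => (Finset.range (n + 1)).sup fun i => h (r i) n, fun x => ?_⟩
    by_cases hx : ∃ n m, x ∈ S n m
    · obtain ⟨n, m, hxnm⟩ := hx
      obtain ⟨i, z, hz, hxz⟩ := hL (S n m) (hSC n m) (hP n m) x hxnm
      have hzR : z ∈ Set.range r := by
        rw [← hr]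
        simp only [R, Set.mem_iUnion]
        exact ⟨n, m, i, hz⟩
      obtain ⟨j, rfl⟩ := hzR
      filter_upwards [eventually_ge_atTop j] with n' hn' hxn'
      rw [hxz] at hxn'
      refine hh (r j) n' _ ?_ hxn'
      exact Finset.le_sup (f := fun i => h (r i) n') (Finset.mem_range.2 (Nat.lt_succ_of_le hn'))
    · push Not at hx
      exact Eventually.of_forall fun n => hx n _
  · refine ⟨fun _ => 0, fun x => Eventually.of_forall fun n hx => ?_⟩
    obtain ⟨i, z, hz, -⟩ := hL (S n 0) (hSC n 0) (hP n 0) x hx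
    apply hne
    refine ⟨z, ?_⟩
    simp only [R, Set.mem_iUnion]
    exact ⟨n, 0, i, hz⟩

theorem alpha (hC : SF C) {S : ℕ → ℕ → Set X} (hSC : ∀ n m, S n m ∈ C)
    (hS : ∀ n x, ∀ᶠ m in atTop, x ∉ S n m) :
    ∃ μ : ℕ → ℕ, ∀ x, ∀ᶠ n in atTop, x ∉ S n (μ n) := by
  by_cases hN : HN C
  · exact caseN hC hN hSC hS
  · choose m₀ hm₀ using fun n => Filter.eventually_atTop.1 (pp_of_not hC hN (hSC n) (hS n))
    obtain ⟨μ, hμ⟩ := caseP' hC (S := fun n m => S n (m + m₀ n)) (fun n m => hSC _ _)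
      (fun n x => (tendsto_add_atTop_nat (m₀ n)).eventually (hS n x))
      (fun n m => hm₀ n _ (Nat.le_add_left _ _))
    exact ⟨fun n => μ n + m₀ n, hμ⟩

/-- the Fréchet-Urysohn property -/
theorem frechet (hC : SF C) {𝒜 : Set (Set X)} (h𝒜 : 𝒜 ⊆ C) {B : Set X} (hB : B ∈ C)
    (hn : ∀ F : Finset X, ∃ A ∈ 𝒜, ∀ x ∈ F, (x ∈ A ↔ x ∈ B)) :
    ∃ A : ℕ → Set X, (∀ k, A k ∈ 𝒜) ∧ Conv A B := by
  have key : B ∈ {D ∈ C | ∃ A : ℕ → Set X, (∀ k, A k ∈ 𝒜) ∧ Conv A D} := by
    refine hC.seq _ (Set.sep_subset _ _) ?_ B hB ?_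
    · intro E D hE hD hconv
      refine ⟨hD, ?_⟩
      choose hEC A hA hAE using hE
      have hsd : ∀ n m, (A n m \ E n) ∪ (E n \ A n m) ∈ C := fun n m =>
        hC.union _ (hC.diff (h𝒜 (hA n m)) (hEC n)) _ (hC.diff (hEC n) (h𝒜 (hA n m)))
      obtain ⟨μ, hμ⟩ := alpha hC hsd (fun n x => by
        filter_upwards [hAE n x] with m hm
        simp only [Set.mem_union, Set.mem_sdiff]
        tauto)
      refine ⟨fun n => A n (μ n), fun n => hA _ _, fun x => ?_⟩
      filter_upwards [hμ x, hconv x] with n h1 h2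
      simp only [Set.mem_union, Set.mem_sdiff] at h1
      tauto
    · intro F
      obtain ⟨A, hA, hAF⟩ := hn F
      exact ⟨A, ⟨h𝒜 hA, fun _ => A, fun _ => hA, fun x => Eventually.of_forall fun _ => Iff.rfl⟩,
        hAF⟩
  exact key.2


variable [TopologicalSpace X]

theorem mem_closure_of (𝒜 : Set {f : X → Bool // Continuous f}) (f : {f : X → Bool // Continuous f})
    (h : ∀ F : Finset X, ∃ g ∈ 𝒜, ∀ x ∈ F, g.1 x = f.1 x) : f ∈ closure 𝒜 := by
  rw [mem_closure_iff_nhds]
  intro t ht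
  rw [nhds_subtype_eq_comap, Filter.mem_comap] at ht
  obtain ⟨u, hu, hut⟩ := ht
  rw [nhds_pi, Filter.mem_pi] at hu
  obtain ⟨I, hI, s, hs, hsu⟩ := hu
  obtain ⟨g, hg, hgF⟩ := h hI.toFinset
  exact ⟨g, hut (hsu fun i hi => by
    rw [hgF i (by simpa using hi)]; exact mem_of_mem_nhds (hs i)), hg⟩

theorem of_mem_closure (𝒜 : Set {f : X → Bool // Continuous f}) (f : {f : X → Bool // Continuous f})
    (h : f ∈ closure 𝒜) (F : Finset X) : ∃ g ∈ 𝒜, ∀ x ∈ F, g.1 x = f.1 x := by
  have ho : IsOpen (⋂ x ∈ F, {g : {f : X → Bool // Continuous f} | g.1 x = f.1 x}) := by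
    refine isOpen_biInter_finset fun x _ => ?_
    have hc : Continuous fun g : {f : X → Bool // Continuous f} => g.1 x :=
      (continuous_apply x).comp continuous_subtype_val
    exact (isOpen_discrete {f.1 x}).preimage hc
  obtain ⟨g, hg1, hg2⟩ := mem_closure_iff.1 h _ ho (by simp)
  exact ⟨g, hg2, fun x hx => by
    simp only [Set.mem_iInter] at hg1
    exact hg1 x hx⟩

theorem tendsto_iff (u : ℕ → {f : X → Bool // Continuous f}) (f : {f : X → Bool // Continuous f}) :
    Tendsto u atTop (𝓝 f) ↔ ∀ x, ∀ᶠ k in atTop, (u k).1 x = f.1 x := by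
  rw [tendsto_subtype_rng, tendsto_pi_nhds]
  refine forall_congr' fun x => ?_
  rw [nhds_discrete, tendsto_pure]

theorem clopen_of (f : {f : X → Bool // Continuous f}) : IsClopen {x | f.1 x = true} :=
  (isClopen_discrete {true}).preimage f.2

open Classical in
theorem cont_of {B : Set X} (hB : IsClopen B) : Continuous fun x => decide (x ∈ B) := by
  rw [continuous_bool_rng true]
  convert hB using 1
  ext x
  simp

theorem sf (h : SequentialSpace {f : X → Bool // Continuous f}) :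
    SF {B : Set X | IsClopen B} := by
  classical
  refine ⟨isClopen_empty, fun A hA => IsClopen.compl hA, fun A hA B hB => IsClopen.union hA hB, ?_⟩
  intro 𝒜 h𝒜 hseq B hB hn
  have hcl : IsSeqClosed {f : {f : X → Bool // Continuous f} | {x | f.1 x = true} ∈ 𝒜} := by
    intro u f hu hf
    rw [tendsto_iff] at hf
    refine hseq (fun k => {x | (u k).1 x = true}) _ hu (clopen_of f) fun x => ?_
    filter_upwards [hf x] with k hk
    show (u k).1 x = true ↔ f.1 x = true
    rw [hk]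
  have hmem : (⟨fun x => decide (x ∈ B), cont_of hB⟩ : {f : X → Bool // Continuous f}) ∈
      closure {f : {f : X → Bool // Continuous f} | {x | f.1 x = true} ∈ 𝒜} := by
    apply mem_closure_of
    intro F
    obtain ⟨A, hA, hAF⟩ := hn F
    refine ⟨⟨fun x => decide (x ∈ A), cont_of (h𝒜 hA)⟩, ?_, ?_⟩
    · show {x | decide (x ∈ A) = true} ∈ 𝒜
      convert hA using 1
      ext x
      simp
    · intro x hx
      show decide (x ∈ A) = decide (x ∈ B)
      exact decide_eq_decide.2 (hAF x hx)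
  rw [hcl.isClosed.closure_eq] at hmem
  have : {x | decide (x ∈ B) = true} ∈ 𝒜 := hmem
  convert this using 1
  ext x
  simp

/-- For every topological space `X`: if the space of continuous maps `X → Bool` with the topology
of pointwise convergence is sequential, then it is a Frechet-Urysohn space. -/
theorem result : ∀ (X : Type u) [TopologicalSpace X],
    SequentialSpace {f : X → Bool // Continuous f} →
    FrechetUrysohnSpace {f : X → Bool // Continuous f} := by
  classical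
  intro X _ h
  refine ⟨fun s f hf => ?_⟩
  have h1 := of_mem_closure s f hf
  obtain ⟨A, hA, hAf⟩ := frechet (sf h) (𝒜 := (fun g : {f : X → Bool // Continuous f} =>
      {x | g.1 x = true}) '' s) (B := {x | f.1 x = true}) (by
        rintro _ ⟨g, -, rfl⟩
        exact clopen_of g) (clopen_of f) (by
        intro F
        obtain ⟨g, hg, hgF⟩ := h1 F
        refine ⟨_, ⟨g, hg, rfl⟩, fun x hx => ?_⟩
        show g.1 x = true ↔ f.1 x = true
        rw [hgF x hx])
  choose u hu huA using hA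
  refine ⟨u, hu, ?_⟩
  rw [tendsto_iff]
  intro x
  filter_upwards [hAf x] with k hk
  rw [← huA k] at hk
  have hk' : (u k).1 x = true ↔ f.1 x = true := hk
  rcases Bool.eq_false_or_eq_true ((u k).1 x) with h2 | h2 <;>
    rcases Bool.eq_false_or_eq_true (f.1 x) with h3 | h3 <;> simp_all

end Pool.Agent.Results.MP_110f0a_gt.SequentialFrechet
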